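import Mathlib
import Pool.Agent.MP_4d0cf5_co.Defs

section

set_option autoImplicit false

namespace Pool.Agent.MP_4d0cf5_co

open Function

variable {N : ℕ}

/-- `h` depends only on the coordinates with index `< m`. -/
def DepLt (m : ℕ) (h : (Fin N → Bool) → ℝ) : Prop :=
  ∀ x y : Fin N → Bool, (∀ j : Fin N, j.val < m → x j = y j) → h x = h y

lemma DepLt.mono {m n : ℕ} {h : (Fin N → Bool) → ℝ} (hh : DepLt m h) (hmn : m ≤ n) :
    DepLt n h := fun x y hxy => hh x y fun j hj => hxy j (lt_of_lt_of_le hj hmn)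

lemma DepLt.upd {m : ℕ} {h : (Fin N → Bool) → ℝ} (hh : DepLt m h) (i : Fin N) (hi : m ≤ i.val)
    (x : Fin N → Bool) (b : Bool) : h (update x i b) = h x := by
  apply hh
  intro j hj
  have : j ≠ i := by
    intro e
    subst e
    omega
  exact update_of_ne this _ _

lemma sum_avg (F : (Fin N → Bool) → ℝ) (i : Fin N) :
    2 * ∑ x, F x = ∑ x, (F (update x i true) + F (update x i false)) := by
  let σ : (Fin N → Bool) ≃ (Fin N → Bool) :=
    { toFun := fun x => update x i (!x i)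
      invFun := fun x => update x i (!x i)
      left_inv := fun x => by simp
      right_inv := fun x => by simp }
  have h1 : ∑ x, F (σ x) = ∑ x, F x := Equiv.sum_comp σ F
  rw [two_mul]
  nth_rewrite 2 [← h1]
  rw [← Finset.sum_add_distrib]
  refine Finset.sum_congr rfl fun x _ => ?_
  change F x + F (update x i (!x i)) = _
  cases hx : x i with
  | true =>
    have : update x i true = x := by rw [← hx]; exact update_eq_self i x
    rw [this]; simp
  | false =>
    have : update x i false = x := by rw [← hx]; exact update_eq_self i x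
    rw [this]; simp [add_comm]

/-- Conditional probability tables in topological order. -/
structure IsTable (c : Fin N → (Fin N → Bool) → ℝ) : Prop where
  dep : ∀ i, DepLt (i.val + 1) (c i)
  sum : ∀ i x, c i (update x i true) + c i (update x i false) = 1

noncomputable def Em (c : Fin N → (Fin N → Bool) → ℝ) (m : ℕ) (h : (Fin N → Bool) → ℝ) : ℝ :=
  ∑ x, (∏ i : Fin N, if i.val < m then c i x else 1 / 2) * h x

noncomputable def Tr (c : Fin N → (Fin N → Bool) → ℝ) (i : Fin N) (h : (Fin N → Bool) → ℝ)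
    (x : Fin N → Bool) : ℝ :=
  c i (update x i true) * h (update x i true) + c i (update x i false) * h (update x i false)

lemma Em_succ {c : Fin N → (Fin N → Bool) → ℝ} (hc : IsTable c) (i : Fin N)
    (h : (Fin N → Bool) → ℝ) : Em c (i.val + 1) h = Em c i.val (Tr c i h) := by
  classical
  let W : (Fin N → Bool) → ℝ :=
    fun x => ∏ j ∈ Finset.univ.erase i, if j.val < i.val then c j x else 1 / 2
  have hW : ∀ x b, W (update x i b) = W x := by
    intro x b
    refine Finset.prod_congr rfl fun j _ => ?_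
    split_ifs with hj
    · exact (hc.dep j).upd i (by omega) x b
    · rfl
  have e1 : ∀ x, (∏ j : Fin N, if j.val < i.val + 1 then c j x else 1 / 2) = c i x * W x := by
    intro x
    rw [← Finset.mul_prod_erase Finset.univ _ (Finset.mem_univ i), if_pos (Nat.lt_succ_self _)]
    congr 1
    refine Finset.prod_congr rfl fun j hj => ?_
    have : j.val ≠ i.val := fun e => (Finset.ne_of_mem_erase hj) (Fin.ext e)
    by_cases h1 : j.val < i.val
    · rw [if_pos h1, if_pos (by omega)]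
    · rw [if_neg h1, if_neg (by omega)]
  have e2 : ∀ x, (∏ j : Fin N, if j.val < i.val then c j x else 1 / 2) = 1 / 2 * W x := by
    intro x
    rw [← Finset.mul_prod_erase Finset.univ _ (Finset.mem_univ i), if_neg (lt_irrefl _)]
  unfold Em
  simp only [e1, e2]
  have := sum_avg (fun x => c i x * W x * h x) i
  simp only [hW] at this
  have e3 : ∑ x, 1 / 2 * W x * Tr c i h x = 1 / 2 * ∑ x, (c i (update x i true) * W x
      * h (update x i true) + c i (update x i false) * W x * h (update x i false)) := by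
    rw [Finset.mul_sum]
    refine Finset.sum_congr rfl fun x _ => ?_
    unfold Tr
    ring
  rw [e3, ← this]
  ring

lemma Tr_of_dep {c : Fin N → (Fin N → Bool) → ℝ} (hc : IsTable c) (i : Fin N)
    {h : (Fin N → Bool) → ℝ} (hh : DepLt i.val h) : Tr c i h = h := by
  funext x
  unfold Tr
  rw [hh.upd i le_rfl, hh.upd i le_rfl, ← add_mul, hc.sum, one_mul]

lemma Em_eq {c : Fin N → (Fin N → Bool) → ℝ} (hc : IsTable c) {m : ℕ}
    {h : (Fin N → Bool) → ℝ} (hh : DepLt m h) : ∀ n, m ≤ n → n ≤ N → Em c n h = Em c m h := by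
  intro n hmn
  induction n, hmn using Nat.le_induction with
  | base => intro _; rfl
  | succ n hmn ih =>
    intro hn
    have := Em_succ hc ⟨n, hn⟩ h
    rw [Tr_of_dep hc ⟨n, hn⟩ (hh.mono hmn)] at this
    rw [this]
    exact ih (by omega)

lemma DepLt.tr {c : Fin N → (Fin N → Bool) → ℝ} (hc : IsTable c) (i : Fin N)
    {h : (Fin N → Bool) → ℝ} (hh : DepLt (i.val + 1) h) : DepLt i.val (Tr c i h) := by
  intro x y hxy
  have key : ∀ b, ∀ j : Fin N, j.val < i.val + 1 → update x i b j = update y i b j := by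
    intro b j hj
    by_cases e : j = i
    · subst e; simp
    · rw [update_of_ne e, update_of_ne e]
      apply hxy
      have : j.val ≠ i.val := fun e' => e (Fin.ext e')
      omega
  unfold Tr
  rw [hc.dep i _ _ (key true), hc.dep i _ _ (key false), hh _ _ (key true), hh _ _ (key false)]

/-- Expectation under the product law. -/
noncomputable def Ex (c : Fin N → (Fin N → Bool) → ℝ) (h : (Fin N → Bool) → ℝ) : ℝ :=
  ∑ x, (∏ i, c i x) * h x

lemma Ex_eq_Em (c : Fin N → (Fin N → Bool) → ℝ) (h : (Fin N → Bool) → ℝ) :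
    Ex c h = Em c N h := by
  unfold Ex Em
  simp

theorem tower {c : Fin N → (Fin N → Bool) → ℝ} (hc : IsTable c) (i : Fin N)
    {h : (Fin N → Bool) → ℝ} (hh : DepLt (i.val + 1) h) : Ex c h = Ex c (Tr c i h) := by
  rw [Ex_eq_Em, Ex_eq_Em, Em_eq hc hh N i.2 le_rfl, Em_eq hc (hh.tr hc i) N i.2.le le_rfl,
    Em_succ hc]

theorem Ex_const {c : Fin N → (Fin N → Bool) → ℝ} (hc : IsTable c) (a : ℝ) :
    Ex c (fun _ => a) = a := by
  have hh : DepLt 0 (fun _ : Fin N → Bool => a) := fun _ _ _ => rfl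
  rw [Ex_eq_Em, Em_eq hc hh N (Nat.zero_le _) le_rfl]
  unfold Em
  simp

lemma Ex_mul (c : Fin N → (Fin N → Bool) → ℝ) (a : ℝ) (h : (Fin N → Bool) → ℝ) :
    Ex c (fun x => a * h x) = a * Ex c h := by
  unfold Ex
  rw [Finset.mul_sum]
  exact Finset.sum_congr rfl fun x _ => by ring

end Pool.Agent.MP_4d0cf5_co

end

section

set_option autoImplicit false

namespace Pool.Agent.MP_4d0cf5_co

open Function

/-- End points of the edges of the recursive diamond, in heap order. -/
def ends : ℕ → ℕ × ℕ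
  | 0 => (0, 1)
  | e + 1 =>
    if e % 4 = 0 then ((ends (e / 4)).1, 2 * (e / 4) + 2)
    else if e % 4 = 1 then (2 * (e / 4) + 2, (ends (e / 4)).2)
    else if e % 4 = 2 then ((ends (e / 4)).1, 2 * (e / 4) + 3)
    else (2 * (e / 4) + 3, (ends (e / 4)).2)
decreasing_by all_goals omega

lemma ends_zero : ends 0 = (0, 1) := by rw [ends]

lemma ends_1 (e : ℕ) : ends (4 * e + 1) = ((ends e).1, 2 * e + 2) := by
  have h1 : 4 * e % 4 = 0 := by omega
  have h2 : 4 * e / 4 = e := by omega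
  rw [ends, if_pos h1, h2]

lemma ends_2 (e : ℕ) : ends (4 * e + 2) = (2 * e + 2, (ends e).2) := by
  have h1 : (4 * e + 1) % 4 = 1 := by omega
  have h2 : (4 * e + 1) / 4 = e := by omega
  rw [show 4 * e + 2 = (4 * e + 1) + 1 from rfl, ends, if_neg (by omega), if_pos h1, h2]

lemma ends_3 (e : ℕ) : ends (4 * e + 3) = ((ends e).1, 2 * e + 3) := by
  have h1 : (4 * e + 2) % 4 = 2 := by omega
  have h2 : (4 * e + 2) / 4 = e := by omega
  rw [show 4 * e + 3 = (4 * e + 2) + 1 from rfl, ends, if_neg (by omega), if_neg (by omega),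
    if_pos h1, h2]

lemma ends_4 (e : ℕ) : ends (4 * e + 4) = (2 * e + 3, (ends e).2) := by
  have h2 : (4 * e + 3) / 4 = e := by omega
  rw [show 4 * e + 4 = (4 * e + 3) + 1 from rfl, ends, if_neg (by omega), if_neg (by omega),
    if_neg (by omega), h2]

lemma four_cases (n : ℕ) : n = 0 ∨ ∃ e, n = 4 * e + 1 ∨ n = 4 * e + 2 ∨ n = 4 * e + 3 ∨
    n = 4 * e + 4 := by
  rcases Nat.eq_zero_or_pos n with h | h
  · exact Or.inl h
  · exact Or.inr ⟨(n - 1) / 4, by omega⟩

lemma ends_lt (n : ℕ) : (ends n).1 < 2 * n + 2 ∧ (ends n).2 < 2 * n + 2 := by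
  induction n using Nat.strong_induction_on with
  | _ n ih =>
    rcases four_cases n with rfl | ⟨e, rfl | rfl | rfl | rfl⟩
    · rw [ends_zero]; simp
    · have := ih e (by omega); rw [ends_1]; dsimp only; omega
    · have := ih e (by omega); rw [ends_2]; dsimp only; omega
    · have := ih e (by omega); rw [ends_3]; dsimp only; omega
    · have := ih e (by omega); rw [ends_4]; dsimp only; omega

def PP (i : ℕ) : ℕ := if i < 2 then 0 else (ends ((i - 2) / 2)).1
def QQ (i : ℕ) : ℕ := if i < 2 then 0 else (ends ((i - 2) / 2)).2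

lemma PP_a (e : ℕ) : PP (2 * e + 2) = (ends e).1 := by
  unfold PP; rw [if_neg (by omega), show (2 * e + 2 - 2) / 2 = e by omega]
lemma PP_b (e : ℕ) : PP (2 * e + 3) = (ends e).1 := by
  unfold PP; rw [if_neg (by omega), show (2 * e + 3 - 2) / 2 = e by omega]
lemma QQ_a (e : ℕ) : QQ (2 * e + 2) = (ends e).2 := by
  unfold QQ; rw [if_neg (by omega), show (2 * e + 2 - 2) / 2 = e by omega]
lemma QQ_b (e : ℕ) : QQ (2 * e + 3) = (ends e).2 := by
  unfold QQ; rw [if_neg (by omega), show (2 * e + 3 - 2) / 2 = e by omega]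

lemma PP_lt {i : ℕ} (hi : 1 ≤ i) : PP i < i := by
  unfold PP
  split_ifs with h
  · omega
  · have := (ends_lt ((i - 2) / 2)).1; omega

lemma QQ_lt {i : ℕ} (hi : 1 ≤ i) : QQ i < i := by
  unfold QQ
  split_ifs with h
  · omega
  · have := (ends_lt ((i - 2) / 2)).2; omega

lemma PP_le (i : ℕ) : PP i ≤ i := by
  rcases Nat.eq_zero_or_pos i with rfl | h
  · simp [PP]
  · exact (PP_lt h).le

lemma QQ_le (i : ℕ) : QQ i ≤ i := by
  rcases Nat.eq_zero_or_pos i with rfl | h
  · simp [QQ]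
  · exact (QQ_lt h).le

lemma ends_key (n : ℕ) (j : ℕ) (hj : j = (ends n).1 ∨ j = (ends n).2) :
    j = max (ends n).1 (ends n).2 ∨ (j < max (ends n).1 (ends n).2 ∧
      (j = PP (max (ends n).1 (ends n).2) ∨ j = QQ (max (ends n).1 (ends n).2))) := by
  rcases four_cases n with rfl | ⟨e, rfl | rfl | rfl | rfl⟩
  · rw [ends_zero] at *
    simp [PP, QQ] at *
    omega
  · have := ends_lt e
    rw [ends_1] at *
    dsimp only at *
    rw [max_eq_right (by omega), PP_a, QQ_a]
    omega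
  · have := ends_lt e
    rw [ends_2] at *
    dsimp only at *
    rw [max_eq_left (by omega), PP_a, QQ_a]
    omega
  · have := ends_lt e
    rw [ends_3] at *
    dsimp only at *
    rw [max_eq_right (by omega), PP_b, QQ_b]
    omega
  · have := ends_lt e
    rw [ends_4] at *
    dsimp only at *
    rw [max_eq_left (by omega), PP_b, QQ_b]
    omega

lemma par_key (i j : ℕ) (hj : j = PP i ∨ j = QQ i) :
    j = max (PP i) (QQ i) ∨ (j < max (PP i) (QQ i) ∧
      (j = PP (max (PP i) (QQ i)) ∨ j = QQ (max (PP i) (QQ i)))) := by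
  by_cases h : i < 2
  · have h1 : PP i = 0 := if_pos h
    have h2 : QQ i = 0 := if_pos h
    rw [h1, h2] at hj ⊢
    left
    omega
  · have h1 : PP i = (ends ((i - 2) / 2)).1 := if_neg h
    have h2 : QQ i = (ends ((i - 2) / 2)).2 := if_neg h
    rw [h1, h2] at hj ⊢
    exact ends_key _ j hj

variable {N : ℕ}

def Pf (i : Fin N) : Fin N := ⟨PP i.val, lt_of_le_of_lt (PP_le _) i.2⟩
def Qf (i : Fin N) : Fin N := ⟨QQ i.val, lt_of_le_of_lt (QQ_le _) i.2⟩

def pa (i : Fin N) : Finset (Fin N) :=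
  Finset.univ.filter (fun j => j.val < i.val ∧ (j.val = PP i.val ∨ j.val = QQ i.val))

lemma mem_pa {i j : Fin N} : j ∈ pa i ↔ j.val < i.val ∧ (j.val = PP i.val ∨ j.val = QQ i.val) := by
  simp [pa]

noncomputable def cpt (i : Fin N) (x : Fin N → Bool) : ℝ :=
  if i.val < 2 then 1 / 2 else
    if x (Pf i) = x (Qf i) then (if x i = x (Pf i) then 1 else 0) else 1 / 2

noncomputable def law (x : Fin N → Bool) : ℝ := ∏ i, cpt i x

lemma Pf_ne {i : Fin N} (hi : 1 ≤ i.val) : Pf i ≠ i := by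
  intro e
  have h1 := congrArg Fin.val e
  have h2 := PP_lt hi
  simp [Pf] at h1
  omega

lemma Qf_ne {i : Fin N} (hi : 1 ≤ i.val) : Qf i ≠ i := by
  intro e
  have h1 := congrArg Fin.val e
  have h2 := QQ_lt hi
  simp [Qf] at h1
  omega

lemma cpt_congr (i : Fin N) (x y : Fin N → Bool) (h1 : x i = y i)
    (h2 : ∀ j ∈ pa i, x j = y j) : cpt i x = cpt i y := by
  unfold cpt
  by_cases h : i.val < 2
  · rw [if_pos h, if_pos h]
  · rw [if_neg h, if_neg h]
    have hp : x (Pf i) = y (Pf i) := h2 _ (mem_pa.mpr ⟨PP_lt (by omega), Or.inl rfl⟩)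
    have hq : x (Qf i) = y (Qf i) := h2 _ (mem_pa.mpr ⟨QQ_lt (by omega), Or.inr rfl⟩)
    rw [h1, hp, hq]

lemma cpt_table : IsTable (cpt (N := N)) where
  dep := fun i x y hxy => cpt_congr i x y (hxy i (Nat.lt_succ_self _))
    (fun j hj => hxy j (Nat.lt_succ_of_lt (mem_pa.mp hj).1))
  sum := fun i x => by
    unfold cpt
    by_cases h : i.val < 2
    · rw [if_pos h, if_pos h]; norm_num
    · rw [if_neg h, if_neg h]
      simp only [update_of_ne (Pf_ne (by omega : 1 ≤ i.val)),
        update_of_ne (Qf_ne (by omega : 1 ≤ i.val)), update_self]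
      cases x (Pf i) <;> cases x (Qf i) <;> norm_num

lemma cpt_nonneg (i : Fin N) (x : Fin N → Bool) : 0 ≤ cpt i x := by
  unfold cpt
  split_ifs <;> norm_num

lemma law_nonneg (x : Fin N → Bool) : 0 ≤ law x := Finset.prod_nonneg fun i _ => cpt_nonneg i x

open Classical in
lemma prob_law (A : (Fin N → Bool) → Prop) :
    prob law A = Ex cpt (fun x => if A x then 1 else 0) := by
  unfold prob Ex law
  refine Finset.sum_congr rfl fun x _ => ?_
  by_cases h : A x <;> simp [h]

lemma law_total : ∑ x : Fin N → Bool, law x = 1 := by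
  have := Ex_const (cpt_table (N := N)) 1
  unfold Ex at this
  simpa [law] using this

lemma prob_joint (i : Fin N) (x : Fin N → Bool) :
    prob law (fun y => y i = x i ∧ ∀ j ∈ pa i, y j = x j)
      = cpt i x * prob law (fun y => ∀ j ∈ pa i, y j = x j) := by
  classical
  rw [prob_law, prob_law, tower cpt_table i, ← Ex_mul]
  · congr 1
    funext y
    have hne : ∀ j ∈ pa i, j ≠ i := fun j hj e => by
      have := (mem_pa.mp hj).1
      subst e
      omega
    have hu : ∀ b, (∀ j ∈ pa i, update y i b j = x j) ↔ (∀ j ∈ pa i, y j = x j) := by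
      intro b
      constructor
      · intro h j hj
        rw [← h j hj, update_of_ne (hne j hj)]
      · intro h j hj
        rw [update_of_ne (hne j hj), h j hj]
    unfold Tr
    simp only [hu, update_self]
    by_cases hy : ∀ j ∈ pa i, y j = x j
    · have hc : cpt i (update y i (x i)) = cpt i x :=
        cpt_congr i _ _ (by simp) ((hu _).mpr hy)
      rw [if_pos hy]
      cases hx : x i with
      | true =>
        rw [hx] at hc
        rw [if_pos ⟨rfl, hy⟩, if_neg (by simp), hc]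
        ring
      | false =>
        rw [hx] at hc
        rw [if_neg (by simp), if_pos ⟨rfl, hy⟩, hc]
        ring
    · rw [if_neg hy, if_neg (fun h => hy h.2), if_neg (fun h => hy h.2)]
      ring
  · intro y z hyz
    have h1 : y i = z i := hyz i (Nat.lt_succ_self _)
    have h2 : (∀ j ∈ pa i, y j = x j) ↔ (∀ j ∈ pa i, z j = x j) := by
      constructor
      · intro h j hj
        rw [← h j hj, hyz j (Nat.lt_succ_of_lt (mem_pa.mp hj).1)]
      · intro h j hj
        rw [← h j hj, hyz j (Nat.lt_succ_of_lt (mem_pa.mp hj).1)]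
    have h3 : (y i = x i ∧ ∀ j ∈ pa i, y j = x j) ↔ (z i = x i ∧ ∀ j ∈ pa i, z j = x j) := by
      rw [h1, h2]
    by_cases h4 : y i = x i ∧ ∀ j ∈ pa i, y j = x j
    · simp only [if_pos h4, if_pos (h3.mp h4)]
    · simp only [if_neg h4, if_neg (fun h => h4 (h3.mpr h))]

lemma law_le_prob (A : (Fin N → Bool) → Prop) (x : Fin N → Bool) (hx : A x) :
    law x ≤ prob law A := by
  classical
  unfold prob
  have := Finset.single_le_sum (s := Finset.univ)
    (f := fun y => if A y then law y else 0)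
    (fun y _ => by split_ifs; exact law_nonneg y; exact le_rfl) (Finset.mem_univ x)
  simp only [if_pos hx] at this
  convert this

theorem isBayesNet : IsBayesNet (pa (N := N)) law where
  acyclic := fun i h => by
    have key : ∀ a b : Fin N, Relation.TransGen (fun a b => a ∈ pa b) a b → a.val < b.val := by
      intro a b hab
      induction hab with
      | single h => exact (mem_pa.mp h).1
      | tail _ h ih => exact lt_trans ih (mem_pa.mp h).1
    exact lt_irrefl _ (key i i h)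
  nonneg := law_nonneg
  total := law_total
  factorises := fun x => by
    by_cases h : ∃ i, prob law (fun y => ∀ j ∈ pa i, y j = x j) = 0
    · obtain ⟨i, hi⟩ := h
      have h1 := law_le_prob (fun y => ∀ j ∈ pa i, y j = x j) x (fun _ _ => rfl)
      rw [hi] at h1
      rw [le_antisymm h1 (law_nonneg x)]
      symm
      apply Finset.prod_eq_zero (Finset.mem_univ i)
      unfold condProb
      rw [hi, div_zero]
    · push Not at h
      unfold law
      refine Finset.prod_congr rfl fun i _ => ?_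
      unfold condProb
      have := prob_joint i x
      unfold law at this h
      rw [this, mul_div_assoc, div_self (h i), mul_one]

lemma disagree_eq (i j : Fin N) :
    disagree law i j = Ex cpt (fun x => if x i = x j then 0 else 1) := by
  unfold disagree
  rw [prob_law]
  congr 1
  funext x
  by_cases h : x i = x j <;> simp [h]

lemma disagree_symm (i j : Fin N) : disagree law i j = disagree law j i := by
  rw [disagree_eq, disagree_eq]
  simp only [eq_comm]

lemma dep_pair (i j : Fin N) (m : ℕ) (hi : i.val < m) (hj : j.val < m) :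
    DepLt m (fun x : Fin N → Bool => if x i = x j then (0:ℝ) else 1) := by
  intro x y h
  simp only [h i hi, h j hj]

lemma disagree_01 (i j : Fin N) (hi : i.val = 0) (hj : j.val = 1) : disagree law i j = 1 / 2 := by
  rw [disagree_eq, tower cpt_table j (dep_pair i j _ (by omega) (by omega)),
    ← Ex_const (cpt_table (N := N)) (1 / 2)]
  congr 1
  funext x
  have hne : i ≠ j := fun e => by subst e; omega
  unfold Tr cpt
  simp only [if_pos (show j.val < 2 by omega), update_of_ne hne, update_self]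
  cases x i <;> norm_num

lemma disagree_P (a : Fin N) (ha : 2 ≤ a.val) :
    disagree law (Pf a) a = 1 / 2 * disagree law (Pf a) (Qf a) := by
  rw [disagree_eq, disagree_eq, ← Ex_mul, tower cpt_table a
    (dep_pair _ _ _ (Nat.lt_succ_of_le (PP_le _)) (Nat.lt_succ_self _))]
  congr 1
  funext x
  unfold Tr cpt
  simp only [if_neg (show ¬ a.val < 2 by omega), update_of_ne (Pf_ne (by omega : 1 ≤ a.val)),
    update_of_ne (Qf_ne (by omega : 1 ≤ a.val)), update_self]
  cases x (Pf a) <;> cases x (Qf a) <;> norm_num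

lemma disagree_Q (a : Fin N) (ha : 2 ≤ a.val) :
    disagree law a (Qf a) = 1 / 2 * disagree law (Pf a) (Qf a) := by
  rw [disagree_eq, disagree_eq, ← Ex_mul, tower cpt_table a
    (dep_pair _ _ _ (Nat.lt_succ_self _) (Nat.lt_succ_of_le (QQ_le _)))]
  congr 1
  funext x
  unfold Tr cpt
  simp only [if_neg (show ¬ a.val < 2 by omega), update_of_ne (Pf_ne (by omega : 1 ≤ a.val)),
    update_of_ne (Qf_ne (by omega : 1 ≤ a.val)), update_self]
  cases x (Pf a) <;> cases x (Qf a) <;> norm_num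

lemma disagree_ab (a b : Fin N) (ha : 2 ≤ a.val) (hab : a.val < b.val) (hP : Pf b = Pf a)
    (hQ : Qf b = Qf a) :
    disagree law a b = 1 / 2 * disagree law (Pf a) (Qf a) := by
  have hne : a ≠ b := fun e => by subst e; omega
  have e1 : Tr cpt b (fun x : Fin N → Bool => if x a = x b then (0:ℝ) else 1)
      = fun x => if x (Pf a) = x (Qf a) then (if x a = x (Pf a) then 0 else 1) else 1 / 2 := by
    funext x
    unfold Tr cpt
    simp only [if_neg (show ¬ b.val < 2 by omega), update_of_ne (Pf_ne (by omega : 1 ≤ b.val)),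
      update_of_ne (Qf_ne (by omega : 1 ≤ b.val)), update_self, update_of_ne hne]
    rw [hP, hQ]
    cases x (Pf a) <;> cases x (Qf a) <;> cases x a <;> norm_num
  rw [disagree_eq, disagree_eq, ← Ex_mul, tower cpt_table b
    (dep_pair _ _ _ (Nat.lt_succ_of_lt hab) (Nat.lt_succ_self _)), e1, tower cpt_table a]
  · congr 1
    funext x
    unfold Tr cpt
    simp only [if_neg (show ¬ a.val < 2 by omega), update_of_ne (Pf_ne (by omega : 1 ≤ a.val)),
      update_of_ne (Qf_ne (by omega : 1 ≤ a.val)), update_self]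
    cases x (Pf a) <;> cases x (Qf a) <;> norm_num
  · intro x y h
    simp only [h a (Nat.lt_succ_self _), h (Pf a) (Nat.lt_succ_of_le (PP_le _)),
      h (Qf a) (Nat.lt_succ_of_le (QQ_le _))]

end Pool.Agent.MP_4d0cf5_co

end

section

set_option autoImplicit false

namespace Pool.Agent.MP_4d0cf5_co

open SimpleGraph

section Helly

variable {ι : Type} {T : SimpleGraph ι}

lemma walk_in_set {A : Set ι} (hA : (T.induce A).Connected) {x y : ι} (hx : x ∈ A) (hy : y ∈ A) :
    ∃ p : T.Walk x y, ∀ w ∈ p.support, w ∈ A := by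
  obtain ⟨q⟩ := hA.preconnected ⟨x, hx⟩ ⟨y, hy⟩
  refine ⟨q.map (Embedding.induce A).toHom, ?_⟩
  intro w hw
  have hw' : w ∈ (q.map (Embedding.induce A).toHom).support := hw
  rw [Walk.support_map, List.mem_map] at hw'
  obtain ⟨a, _, rfl⟩ := hw'
  exact a.2

lemma cross {P R : Set ι} : ∀ {x z : ι} (q : T.Walk x z), x ∈ P → z ∈ R →
    (∀ a b, s(a, b) ∈ q.edges → (a ∈ P ∧ b ∈ P) ∨ (a ∈ R ∧ b ∈ R)) →
    ∃ w ∈ q.support, w ∈ P ∧ w ∈ R := by
  intro x z q
  induction q with
  | nil => intro h1 h2 _; exact ⟨_, by simp, h1, h2⟩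
  | @cons u v w h p ih =>
    intro h1 h2 h3
    rcases h3 u v (by simp) with h4 | h4
    · obtain ⟨w', hw', h5⟩ := ih h4.2 h2 (fun a b hab => h3 a b (by simp [hab]))
      exact ⟨w', by simp [hw'], h5⟩
    · exact ⟨u, by simp, h1, h4.1⟩

lemma helly3 (hT : T.IsAcyclic) {A B C : Set ι} (hA : (T.induce A).Connected)
    (hB : (T.induce B).Connected) (hC : (T.induce C).Connected) {x y z : ι}
    (hxA : x ∈ A) (hxB : x ∈ B) (hyB : y ∈ B) (hyC : y ∈ C) (hzA : z ∈ A) (hzC : z ∈ C) :
    ∃ w, w ∈ A ∧ w ∈ B ∧ w ∈ C := by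
  classical
  obtain ⟨p, hp⟩ := walk_in_set hB hxB hyB
  obtain ⟨r, hr⟩ := walk_in_set hC hyC hzC
  obtain ⟨q, hq⟩ := walk_in_set hA hxA hzA
  have he : q.toPath = (p.append r).toPath := (hT.subsingleton_path x z).elim _ _
  obtain ⟨w, hw, h1⟩ := cross (P := B) (R := C) (q.toPath : T.Walk x z) hxB hzC (by
    intro a b hab
    rw [he] at hab
    have := Walk.edges_toPath_subset_edges _ hab
    rw [Walk.edges_append, List.mem_append] at this
    rcases this with h | h
    · exact Or.inl ⟨hp _ (p.fst_mem_support_of_mem_edges h), hp _ (p.snd_mem_support_of_mem_edges h)⟩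
    · exact Or.inr ⟨hr _ (r.fst_mem_support_of_mem_edges h), hr _ (r.snd_mem_support_of_mem_edges h)⟩)
  exact ⟨w, hq _ (Walk.support_toPath_subset_support _ hw), h1⟩

end Helly

lemma triangle_lower {N m : ℕ} {G : SimpleGraph (Fin N)} {T : SimpleGraph (Fin m)}
    {bag : Fin m → Finset (Fin N)} (h : IsTreeDecomposition G T bag) {a b c : Fin N}
    (hab : G.Adj a b) (hbc : G.Adj b c) (hac : G.Adj a c) : ∃ t, 3 ≤ (bag t).card := by
  obtain ⟨x, hx1, hx2⟩ := h.edge_mem a b hab
  obtain ⟨y, hy1, hy2⟩ := h.edge_mem b c hbc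
  obtain ⟨z, hz1, hz2⟩ := h.edge_mem a c hac
  obtain ⟨w, h1, h2, h3⟩ := helly3 h.isTree.isAcyclic (h.connected a) (h.connected b)
    (h.connected c) (x := x) (y := y) (z := z) hx1 hx2 hy1 hy2 hz1 hz2
  refine ⟨w, ?_⟩
  have hsub : ({a, b, c} : Finset (Fin N)) ⊆ bag w := by
    intro v hv
    simp only [Finset.mem_insert, Finset.mem_singleton] at hv
    rcases hv with rfl | rfl | rfl
    exacts [h1, h2, h3]
  have hcard : ({a, b, c} : Finset (Fin N)).card = 3 :=
    Finset.card_eq_three.mpr ⟨a, b, c, hab.ne, hac.ne, hbc.ne, rfl⟩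
  rw [← hcard]
  exact Finset.card_le_card hsub

variable {N : ℕ}

def par (i : Fin N) : Fin N :=
  ⟨max (PP i.val) (QQ i.val), lt_of_le_of_lt (max_le (PP_le _) (QQ_le _)) i.2⟩

lemma par_lt {i : Fin N} (hi : 1 ≤ i.val) : (par i).val < i.val := max_lt (PP_lt hi) (QQ_lt hi)

def tree (N : ℕ) : SimpleGraph (Fin N) := SimpleGraph.fromRel (fun a b => b = par a)

def bag (i : Fin N) : Finset (Fin N) := insert i (pa i)

lemma tree_adj {i : Fin N} (hi : 1 ≤ i.val) : (tree N).Adj i (par i) := by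
  unfold tree
  rw [fromRel_adj]
  refine ⟨fun e => ?_, Or.inl rfl⟩
  have := par_lt hi
  rw [← e] at this
  exact lt_irrefl _ this

lemma bag_par {i v : Fin N} (hv : v ∈ pa i) : v ∈ bag (par i) := by
  rw [mem_pa] at hv
  unfold bag
  rw [Finset.mem_insert, mem_pa]
  rcases par_key i.val v.val hv.2 with h | h
  · exact Or.inl (Fin.ext h)
  · exact Or.inr h

lemma induce_conn (v : Fin N) : ((tree N).induce {t | v ∈ bag t}).Connected := by
  have hv : v ∈ {t : Fin N | v ∈ bag t} := (Finset.mem_insert_self v (pa v) : v ∈ bag v)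
  have key : ∀ n : ℕ, ∀ (t : Fin N) (ht : t ∈ {t : Fin N | v ∈ bag t}), t.val = n →
      ((tree N).induce {t | v ∈ bag t}).Reachable ⟨t, ht⟩ ⟨v, hv⟩ := by
    intro n
    induction n using Nat.strong_induction_on with
    | _ n ih =>
      intro t ht hn
      have ht' : v ∈ insert t (pa t) := ht
      rcases Finset.mem_insert.mp ht' with h | h
      · subst h
        exact Reachable.refl _
      · have h1 : 1 ≤ t.val := by
          have := (mem_pa.mp h).1
          omega
        have h2 := ih (par t).val (by rw [← hn]; exact par_lt h1) (par t) (bag_par h) rfl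
        refine Reachable.trans (Adj.reachable ?_) h2
        exact tree_adj h1
  have : Nonempty ↥{t : Fin N | v ∈ bag t} := ⟨⟨v, hv⟩⟩
  exact Connected.mk fun a b => (key _ a.1 a.2 rfl).trans (key _ b.1 b.2 rfl).symm

lemma tree_conn (hN : 0 < N) : (tree N).Connected := by
  have key : ∀ n : ℕ, ∀ t : Fin N, t.val = n → (tree N).Reachable t ⟨0, hN⟩ := by
    intro n
    induction n using Nat.strong_induction_on with
    | _ n ih =>
      intro t hn
      rcases Nat.eq_zero_or_pos t.val with h | h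
      · have : t = ⟨0, hN⟩ := Fin.ext h
        rw [this]
      · exact (tree_adj h).reachable.trans (ih _ (by rw [← hn]; exact par_lt h) (par t) rfl)
  have : Nonempty (Fin N) := ⟨⟨0, hN⟩⟩
  exact Connected.mk fun a b => (key _ a rfl).trans (key _ b rfl).symm

lemma tree_isTree (hN : 0 < N) : (tree N).IsTree := by
  classical
  rw [isTree_iff_connected_and_card]
  refine ⟨tree_conn hN, le_antisymm ?_ (tree_conn hN).card_vert_le_card_edgeSet_add_one⟩
  have hsub : (tree N).edgeSet ⊆ ((Finset.univ.erase (⟨0, hN⟩ : Fin N)).image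
      (fun i => s(i, par i)) : Finset (Sym2 (Fin N))) := by
    intro e he
    induction e using Sym2.ind with
    | _ a b =>
      rw [mem_edgeSet, tree, fromRel_adj] at he
      have hz : par (⟨0, hN⟩ : Fin N) = ⟨0, hN⟩ := by
        apply Fin.ext
        simp [par, PP, QQ]
      rw [Finset.mem_coe, Finset.mem_image]
      rcases he with ⟨hne, h | h⟩
      · refine ⟨a, Finset.mem_erase.mpr ⟨fun e => hne ?_, Finset.mem_univ _⟩, by rw [h]⟩
        rw [h, e, hz]
      · refine ⟨b, Finset.mem_erase.mpr ⟨fun e => hne ?_, Finset.mem_univ _⟩, by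
          rw [h, Sym2.eq_swap]⟩
        rw [h, e, hz]
  have h1 := Set.ncard_le_ncard hsub (Finset.finite_toSet _)
  rw [Set.ncard_coe_finset] at h1
  have h2 := Finset.card_image_le (s := Finset.univ.erase (⟨0, hN⟩ : Fin N))
    (f := fun i => s(i, par i))
  rw [Finset.card_erase_of_mem (Finset.mem_univ _), Finset.card_univ, Fintype.card_fin] at h2
  rw [Nat.card_coe_set_eq, Nat.card_eq_fintype_card, Fintype.card_fin]
  omega

lemma decomp (hN : 0 < N) : IsTreeDecomposition (underlying (pa (N := N))) (tree N) bag where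
  isTree := tree_isTree hN
  vertex_mem := fun v => ⟨v, Finset.mem_insert_self _ _⟩
  edge_mem := fun u v h => by
    rw [underlying, fromRel_adj] at h
    rcases h.2 with h | h
    · exact ⟨v, Finset.mem_insert_of_mem h, Finset.mem_insert_self _ _⟩
    · exact ⟨u, Finset.mem_insert_self _ _, Finset.mem_insert_of_mem h⟩
  connected := induce_conn

lemma bag_card (i : Fin N) : (bag i).card ≤ 2 + 1 := by
  have h1 : pa i ⊆ {Pf i, Qf i} := by
    intro j hj
    rw [Finset.mem_insert, Finset.mem_singleton]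
    rcases (mem_pa.mp hj).2 with h | h
    · exact Or.inl (Fin.ext h)
    · exact Or.inr (Fin.ext h)
  have h2 := Finset.card_le_card h1
  have h3 : ({Pf i, Qf i} : Finset (Fin N)).card ≤ 2 := Finset.card_le_two
  have h4 := Finset.card_insert_le i (pa i)
  unfold bag
  omega

theorem treewidth_eq (hN : 3 ≤ N) : treewidth (underlying (pa (N := N))) = 2 := by
  have hmem : 2 ∈ {w | ∃ (m : ℕ) (T : SimpleGraph (Fin m)) (bag : Fin m → Finset (Fin N)),
      IsTreeDecomposition (underlying (pa (N := N))) T bag ∧ ∀ t, (bag t).card ≤ w + 1} :=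
    ⟨N, tree N, bag, decomp (by omega), bag_card⟩
  unfold treewidth
  refine le_antisymm (Nat.sInf_le hmem) (le_csInf ⟨2, hmem⟩ ?_)
  rintro w ⟨m, T, bg, hd, hw⟩
  have hP : PP 2 = 0 := by have := PP_a 0; rw [ends_zero] at this; exact this
  have hQ : QQ 2 = 1 := by have := QQ_a 0; rw [ends_zero] at this; exact this
  have h01 : (underlying (pa (N := N))).Adj ⟨0, by omega⟩ ⟨1, by omega⟩ := by
    rw [underlying, fromRel_adj]
    exact ⟨by simp, Or.inl (mem_pa.mpr ⟨by simp, Or.inl (by simp [PP])⟩)⟩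
  have h12 : (underlying (pa (N := N))).Adj ⟨1, by omega⟩ ⟨2, by omega⟩ := by
    rw [underlying, fromRel_adj]
    exact ⟨by simp, Or.inl (mem_pa.mpr ⟨by simp, Or.inr hQ.symm⟩)⟩
  have h02 : (underlying (pa (N := N))).Adj ⟨0, by omega⟩ ⟨2, by omega⟩ := by
    rw [underlying, fromRel_adj]
    exact ⟨by simp, Or.inl (mem_pa.mpr ⟨by simp, Or.inl hP.symm⟩)⟩
  obtain ⟨t, ht⟩ := triangle_lower hd h01 h12 h02
  have := hw t
  omega

end Pool.Agent.MP_4d0cf5_co

end

section

set_option autoImplicit false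

namespace Pool.Agent.MP_4d0cf5_co

/-- Huber function at scale `a`. -/
noncomputable def hub (a x : ℝ) : ℝ := if |x| ≤ a then x ^ 2 / (2 * a) else |x| - a / 2

lemma hub_ge {a : ℝ} (ha : 0 < a) (x s : ℝ) (hs : |s| ≤ 1) : s * x - a * s ^ 2 / 2 ≤ hub a x := by
  unfold hub
  split_ifs with h
  · rw [le_div_iff₀ (by positivity)]
    nlinarith [sq_nonneg (x - a * s)]
  · push Not at h
    have h1 : s * x ≤ |s| * |x| := by rw [← abs_mul]; exact le_abs_self _
    have h2 : s ^ 2 = |s| ^ 2 := (sq_abs s).symm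
    have h3 := abs_nonneg s
    rw [h2]
    nlinarith [mul_nonneg (sub_nonneg.mpr hs) (sub_nonneg.mpr h.le), sq_nonneg (1 - |s|),
      mul_nonneg ha.le (sq_nonneg (1 - |s|))]

lemma hub_eq {a : ℝ} (ha : 0 < a) (x : ℝ) :
    ∃ s : ℝ, |s| ≤ 1 ∧ hub a x = s * x - a * s ^ 2 / 2 := by
  unfold hub
  split_ifs with h
  · refine ⟨x / a, ?_, ?_⟩
    · rw [abs_div, abs_of_pos ha, div_le_one ha]; exact h
    · field_simp; ring
  · rcases abs_cases x with ⟨h1, _⟩ | ⟨h1, _⟩
    · exact ⟨1, by simp, by rw [h1]; ring⟩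
    · exact ⟨-1, by simp, by rw [h1]; ring⟩

lemma hub_mid {a : ℝ} (ha : 0 < a) (x y : ℝ) :
    2 * hub a ((x + y) / 2) ≤ hub a x + hub a y := by
  obtain ⟨s, hs, h⟩ := hub_eq ha ((x + y) / 2)
  have h1 := hub_ge ha x s hs
  have h2 := hub_ge ha y s hs
  rw [h]
  linarith

lemma hub_nonneg {a : ℝ} (ha : 0 < a) (x : ℝ) : 0 ≤ hub a x := by
  have := hub_ge ha x 0 (by simp)
  simpa using this

lemma hub_le {a : ℝ} (ha : 0 < a) (x : ℝ) : hub a x ≤ |x| := by
  unfold hub
  split_ifs with h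
  · rw [div_le_iff₀ (by positivity), ← sq_abs x]
    have := abs_nonneg x
    nlinarith
  · linarith

lemma hub_gap {a : ℝ} (ha : 0 < a) (x y : ℝ) (hx : |x| ≤ a) (hy : |y| ≤ a) :
    2 * hub a ((x + y) / 2) + (x - y) ^ 2 / (4 * a) = hub a x + hub a y := by
  have hm : |(x + y) / 2| ≤ a := by
    have := abs_le.mp hx
    have := abs_le.mp hy
    rw [abs_le]
    constructor <;> linarith
  unfold hub
  rw [if_pos hx, if_pos hy, if_pos hm]
  field_simp
  ring

/-- Sum of Huber functions over dyadic scales. -/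
noncomputable def phi (η : ℝ) (J : ℕ) (x : ℝ) : ℝ := ∑ j ∈ Finset.range (J + 1), hub (2 ^ j * η) x

lemma phi_nonneg {η : ℝ} (hη : 0 < η) (J : ℕ) (x : ℝ) : 0 ≤ phi η J x :=
  Finset.sum_nonneg fun j _ => hub_nonneg (by positivity) x

lemma phi_le {η : ℝ} (hη : 0 < η) (J : ℕ) (x : ℝ) : phi η J x ≤ (J + 1) * |x| := by
  unfold phi
  have := Finset.sum_le_card_nsmul (Finset.range (J + 1)) (fun j => hub (2 ^ j * η) x) |x|
    (fun j _ => hub_le (by positivity) x)
  simpa using this

lemma exists_scale {η : ℝ} (hη : 0 < η) (M : ℝ) (hM : 0 ≤ M) :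
    ∀ J : ℕ, M ≤ 2 ^ J * η → ∃ j ≤ J, M ≤ 2 ^ j * η ∧ 2 ^ j * η ≤ 2 * M + η := by
  intro J
  induction J with
  | zero => intro h; exact ⟨0, le_rfl, h, by simp; linarith⟩
  | succ J ih =>
    intro h
    by_cases h1 : M ≤ 2 ^ J * η
    · obtain ⟨j, hj, h2⟩ := ih h1
      exact ⟨j, by omega, h2⟩
    · push Not at h1
      refine ⟨J + 1, le_rfl, h, ?_⟩
      rw [pow_succ]
      linarith

lemma phi_gap {η : ℝ} (hη : 0 < η) (J : ℕ) (x y l : ℝ) (hx : |x| ≤ 2 ^ J * η)
    (hy : |y| ≤ 2 ^ J * η) :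
    2 * phi η J ((x + y) / 2) + (2 * l * |x - y| - l ^ 2 * (2 * |x| + 2 * |y| + η)) / 4
      ≤ phi η J x + phi η J y := by
  obtain ⟨j, hj, h1, h2⟩ := exists_scale hη (max |x| |y|)
    (le_trans (abs_nonneg x) (le_max_left _ _)) J (max_le hx hy)
  have ha : (0:ℝ) < 2 ^ j * η := by positivity
  set a := 2 ^ j * η with hadef
  have hg := hub_gap ha x y (le_trans (le_max_left _ _) h1) (le_trans (le_max_right _ _) h1)
  have hmax : max |x| |y| ≤ |x| + |y| :=
    max_le (by linarith [abs_nonneg y]) (by linarith [abs_nonneg x])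
  have hq : (2 * l * |x - y| - l ^ 2 * (2 * |x| + 2 * |y| + η)) / 4 ≤ (x - y) ^ 2 / (4 * a) := by
    have e1 : (2 * l * |x - y| - l ^ 2 * a) / 4 ≤ (x - y) ^ 2 / (4 * a) := by
      rw [div_le_div_iff₀ (by norm_num) (by positivity), ← sq_abs (x - y)]
      nlinarith [sq_nonneg (|x - y| - l * a)]
    have e2 : l ^ 2 * a ≤ l ^ 2 * (2 * |x| + 2 * |y| + η) :=
      mul_le_mul_of_nonneg_left (by linarith) (sq_nonneg l)
    linarith
  have hsum : ∑ i ∈ Finset.range (J + 1), (hub (2 ^ i * η) x + hub (2 ^ i * η) y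
      - 2 * hub (2 ^ i * η) ((x + y) / 2)) = phi η J x + phi η J y - 2 * phi η J ((x + y) / 2) := by
    unfold phi
    rw [Finset.sum_sub_distrib, Finset.sum_add_distrib, Finset.mul_sum]
  have hsingle := Finset.single_le_sum (s := Finset.range (J + 1))
    (f := fun i => hub (2 ^ i * η) x + hub (2 ^ i * η) y - 2 * hub (2 ^ i * η) ((x + y) / 2))
    (fun i _ => by have := hub_mid (a := 2 ^ i * η) (by positivity) x y; linarith)
    (Finset.mem_range.mpr (Nat.lt_succ_of_le hj))
  rw [hsum] at hsingle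
  linarith

/-- The potential on vectors. -/
noncomputable def Phi {k : ℕ} (J : ℕ) (w : Fin k → ℝ) : ℝ := ∑ t, phi (1 / (k + 1)) J (w t)

lemma Phi_nonneg {k : ℕ} (J : ℕ) (w : Fin k → ℝ) : 0 ≤ Phi J w :=
  Finset.sum_nonneg fun t _ => phi_nonneg (by positivity) J (w t)

lemma Phi_le {k : ℕ} (J : ℕ) (w : Fin k → ℝ) {C : ℝ} (hw : ∑ t, |w t| ≤ C) :
    Phi J w ≤ (J + 1) * C := by
  unfold Phi
  calc ∑ t, phi (1 / (k + 1)) J (w t) ≤ ∑ t, ((J:ℝ) + 1) * |w t| :=
        Finset.sum_le_sum fun t _ => phi_le (by positivity) J (w t)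
    _ = (J + 1) * ∑ t, |w t| := by rw [Finset.mul_sum]
    _ ≤ (J + 1) * C := mul_le_mul_of_nonneg_left hw (by positivity)

lemma Phi_gap {k : ℕ} (J : ℕ) (x y m : Fin k → ℝ) {C : ℝ} (hC : 0 ≤ C)
    (hJ : C * (k + 1) ≤ 2 ^ J) (hx : ∑ t, |x t| ≤ C) (hy : ∑ t, |y t| ≤ C)
    (hm : ∀ t, m t = (x t + y t) / 2) (hxy : 1 ≤ ∑ t, |x t - y t|) :
    2 * Phi J m + 1 / (4 * (4 * C + 1)) ≤ Phi J x + Phi J y := by
  have hη : (0:ℝ) < 1 / (k + 1) := by positivity
  have hb : C ≤ 2 ^ J * (1 / ((k:ℝ) + 1)) := by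
    rw [mul_one_div, le_div_iff₀ (by positivity)]; exact hJ
  have hxt : ∀ t, |x t| ≤ 2 ^ J * (1 / ((k:ℝ) + 1)) := fun t =>
    le_trans (le_trans (Finset.single_le_sum (f := fun t => |x t|) (fun i _ => abs_nonneg _)
      (Finset.mem_univ t)) hx) hb
  have hyt : ∀ t, |y t| ≤ 2 ^ J * (1 / ((k:ℝ) + 1)) := fun t =>
    le_trans (le_trans (Finset.single_le_sum (f := fun t => |y t|) (fun i _ => abs_nonneg _)
      (Finset.mem_univ t)) hy) hb
  set l : ℝ := 1 / (4 * C + 1) with hl
  have hl0 : 0 < l := by positivity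
  have h := Finset.sum_le_sum (s := Finset.univ)
    (fun t _ => phi_gap hη J (x t) (y t) l (hxt t) (hyt t))
  rw [Finset.sum_add_distrib, Finset.sum_add_distrib, ← Finset.mul_sum, ← Finset.sum_div,
    Finset.sum_sub_distrib, ← Finset.mul_sum, ← Finset.mul_sum, Finset.sum_add_distrib,
    Finset.sum_add_distrib, ← Finset.mul_sum, ← Finset.mul_sum] at h
  have hk : ∑ _t : Fin k, (1 / ((k:ℝ) + 1)) ≤ 1 := by
    rw [Finset.sum_const, Finset.card_univ, Fintype.card_fin, nsmul_eq_mul, mul_one_div,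
      div_le_one (by positivity)]
    linarith
  have hPm : Phi J m = ∑ t, phi (1 / (k + 1)) J ((x t + y t) / 2) := by
    unfold Phi
    exact Finset.sum_congr rfl fun t _ => by rw [hm t]
  have e1 : l ^ 2 * (2 * ∑ t, |x t| + 2 * ∑ t, |y t| + ∑ _t : Fin k, (1 / ((k:ℝ) + 1)))
      ≤ l ^ 2 * (4 * C + 1) := mul_le_mul_of_nonneg_left (by linarith) (sq_nonneg l)
  have e2 : l ^ 2 * (4 * C + 1) = l := by rw [hl]; field_simp
  have e3 : 2 * l * 1 ≤ 2 * l * ∑ t, |x t - y t| := mul_le_mul_of_nonneg_left hxy (by positivity)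
  have e4 : 1 / (4 * (4 * C + 1)) = l / 4 := by rw [hl]; field_simp
  rw [hPm, e4]
  unfold Phi
  linarith

/-- One diamond step: one of the four sides has a larger potential. -/
lemma Phi_step {k : ℕ} (J : ℕ) (w w1 w2 w3 w4 : Fin k → ℝ) {C : ℝ} (hC : 0 ≤ C)
    (hJ : C * (k + 1) ≤ 2 ^ J) (h1 : ∑ t, |w1 t| ≤ C) (h2 : ∑ t, |w2 t| ≤ C)
    (h3 : ∑ t, |w3 t| ≤ C) (h4 : ∑ t, |w4 t| ≤ C)
    (h12 : ∀ t, w t = (w1 t + w2 t) / 2) (h34 : ∀ t, w t = (w3 t + w4 t) / 2)
    (h13 : 1 ≤ ∑ t, |w1 t - w3 t|) :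
    Phi J w + 1 / (8 * (4 * C + 1)) ≤ Phi J w1 ∨ Phi J w + 1 / (8 * (4 * C + 1)) ≤ Phi J w2 ∨
    Phi J w + 1 / (8 * (4 * C + 1)) ≤ Phi J w3 ∨ Phi J w + 1 / (8 * (4 * C + 1)) ≤ Phi J w4 := by
  have hsum : 2 * ∑ t, |w1 t - w3 t| ≤ ∑ t, |w1 t - w2 t| + ∑ t, |w3 t - w4 t| := by
    rw [Finset.mul_sum, ← Finset.sum_add_distrib]
    refine Finset.sum_le_sum fun t _ => ?_
    have e : 2 * (w1 t - w3 t) = (w1 t - w2 t) - (w3 t - w4 t) := by
      have := h12 t
      have := h34 t
      linarith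
    have := abs_sub (w1 t - w2 t) (w3 t - w4 t)
    rw [← e, abs_mul] at this
    simpa using this
  have e4 : 1 / (4 * (4 * C + 1)) = 2 * (1 / (8 * (4 * C + 1))) := by field_simp; norm_num
  by_cases hc : 1 ≤ ∑ t, |w1 t - w2 t|
  · have := Phi_gap J w1 w2 w hC hJ h1 h2 h12 hc
    by_contra hcon
    push Not at hcon
    linarith [hcon.1, hcon.2.1]
  · have hc' : 1 ≤ ∑ t, |w3 t - w4 t| := by push Not at hc; linarith
    have := Phi_gap J w3 w4 w hC hJ h3 h4 h34 hc'
    by_contra hcon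
    push Not at hcon
    linarith [hcon.2.2.1, hcon.2.2.2]

end Pool.Agent.MP_4d0cf5_co

end

section

set_option autoImplicit false

namespace Pool.Agent.MP_4d0cf5_co

variable {N k : ℕ}

lemma scaled_sum (f : Fin N → Fin k → ℝ) (u v : Fin N) {s : ℝ} (hs : 0 ≤ s) :
    ∑ t, |(f v t - f u t) * s| = (∑ t, |f u t - f v t|) * s := by
  rw [Finset.sum_mul]
  refine Finset.sum_congr rfl fun t _ => ?_
  rw [abs_mul, abs_of_nonneg hs, abs_sub_comm]

lemma scaled_le (f : Fin N → Fin k → ℝ) {r C : ℝ} (hr : 0 < r)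
    (hf : ∀ i j, r * disagree law i j ≤ ∑ t, |f i t - f j t| ∧
      ∑ t, |f i t - f j t| ≤ C * r * disagree law i j) (u v : Fin N) (n : ℕ)
    (h : disagree law u v = (1 / 2) ^ n) : ∑ t, |(f v t - f u t) * (2 ^ n / r)| ≤ C := by
  rw [scaled_sum f u v (by positivity)]
  have h1 := (hf u v).2
  rw [h] at h1
  calc (∑ t, |f u t - f v t|) * (2 ^ n / r) ≤ C * r * (1 / 2) ^ n * (2 ^ n / r) :=
        mul_le_mul_of_nonneg_right h1 (by positivity)
    _ = C := by rw [one_div, inv_pow]; field_simp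

lemma scaled_ge (f : Fin N → Fin k → ℝ) {r C : ℝ} (hr : 0 < r)
    (hf : ∀ i j, r * disagree law i j ≤ ∑ t, |f i t - f j t| ∧
      ∑ t, |f i t - f j t| ≤ C * r * disagree law i j) (u v : Fin N) (n : ℕ)
    (h : disagree law u v = (1 / 2) ^ n) : 1 ≤ ∑ t, |(f v t - f u t) * (2 ^ n / r)| := by
  rw [scaled_sum f u v (by positivity)]
  have h1 := (hf u v).1
  rw [h] at h1
  calc (1:ℝ) = r * (1 / 2) ^ n * (2 ^ n / r) := by rw [one_div, inv_pow]; field_simp
    _ ≤ (∑ t, |f u t - f v t|) * (2 ^ n / r) := mul_le_mul_of_nonneg_right h1 (by positivity)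

lemma descent (hN : 2 ≤ N) (f : Fin N → Fin k → ℝ) {r C : ℝ} (hr : 0 < r) (hC : 0 ≤ C)
    (hf : ∀ i j, r * disagree law i j ≤ ∑ t, |f i t - f j t| ∧
      ∑ t, |f i t - f j t| ≤ C * r * disagree law i j) (J : ℕ) (hJ : C * (k + 1) ≤ 2 ^ J) :
    ∀ l : ℕ, 4 ^ l ≤ N → ∃ (e : ℕ) (u v : Fin N), 3 * e + 4 ≤ 4 ^ (l + 1) ∧
      u.val = (ends e).1 ∧ v.val = (ends e).2 ∧ disagree law u v = (1 / 2) ^ (l + 1) ∧
      l * (1 / (8 * (4 * C + 1))) ≤ Phi J (fun t => (f v t - f u t) * (2 ^ (l + 1) / r)) := by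
  intro l
  induction l with
  | zero =>
    intro _
    refine ⟨0, ⟨0, by omega⟩, ⟨1, by omega⟩, by norm_num, by rw [ends_zero], by rw [ends_zero],
      ?_, ?_⟩
    · rw [disagree_01 _ _ rfl rfl]; norm_num
    · simpa using Phi_nonneg _ _
  | succ l ih =>
    intro hl
    obtain ⟨e, u, v, he, hu, hv, hd, hPhi⟩ := ih (le_trans (Nat.pow_le_pow_right (by norm_num)
      (Nat.le_succ l)) hl)
    let a : Fin N := ⟨2 * e + 2, by omega⟩
    let b : Fin N := ⟨2 * e + 3, by omega⟩
    have hPa : Pf a = u := Fin.ext (by rw [hu]; exact PP_a e)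
    have hPb : Pf b = u := Fin.ext (by rw [hu]; exact PP_b e)
    have hQa : Qf a = v := Fin.ext (by rw [hv]; exact QQ_a e)
    have hQb : Qf b = v := Fin.ext (by rw [hv]; exact QQ_b e)
    have ha2 : 2 ≤ a.val := by simp [a]
    have hb2 : 2 ≤ b.val := by simp [b]
    have hhalf : (1 / 2 : ℝ) * (1 / 2) ^ (l + 1) = (1 / 2) ^ (l + 1 + 1) := by ring
    have d1 : disagree law u a = (1 / 2) ^ (l + 1 + 1) := by
      have := disagree_P a ha2
      rw [hPa, hQa, hd, hhalf] at this
      exact this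
    have d2 : disagree law a v = (1 / 2) ^ (l + 1 + 1) := by
      have := disagree_Q a ha2
      rw [hPa, hQa, hd, hhalf] at this
      exact this
    have d3 : disagree law u b = (1 / 2) ^ (l + 1 + 1) := by
      have := disagree_P b hb2
      rw [hPb, hQb, hd, hhalf] at this
      exact this
    have d4 : disagree law b v = (1 / 2) ^ (l + 1 + 1) := by
      have := disagree_Q b hb2
      rw [hPb, hQb, hd, hhalf] at this
      exact this
    have d5 : disagree law b a = (1 / 2) ^ (l + 1 + 1) := by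
      have := disagree_ab a b ha2 (by simp [a, b]) (by rw [hPa, hPb]) (by rw [hQa, hQb])
      rw [hPa, hQa, hd, hhalf] at this
      rw [disagree_symm]
      exact this
    have h13 : 1 ≤ ∑ t, |(f a t - f u t) * (2 ^ (l + 1 + 1) / r)
        - (f b t - f u t) * (2 ^ (l + 1 + 1) / r)| := by
      have := scaled_ge f hr hf b a _ d5
      refine le_trans this (le_of_eq (Finset.sum_congr rfl fun t _ => ?_))
      congr 1
      ring
    have hstep := Phi_step J (fun t => (f v t - f u t) * (2 ^ (l + 1) / r))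
      (fun t => (f a t - f u t) * (2 ^ (l + 1 + 1) / r))
      (fun t => (f v t - f a t) * (2 ^ (l + 1 + 1) / r))
      (fun t => (f b t - f u t) * (2 ^ (l + 1 + 1) / r))
      (fun t => (f v t - f b t) * (2 ^ (l + 1 + 1) / r)) hC hJ
      (scaled_le f hr hf u a _ d1) (scaled_le f hr hf a v _ d2)
      (scaled_le f hr hf u b _ d3) (scaled_le f hr hf b v _ d4)
      (fun t => by ring) (fun t => by ring) h13
    have hpow : 4 ^ (l + 1 + 1) = 4 * 4 ^ (l + 1) := by ring
    have hcast : ((l + 1 : ℕ) : ℝ) * (1 / (8 * (4 * C + 1)))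
        = l * (1 / (8 * (4 * C + 1))) + 1 / (8 * (4 * C + 1)) := by push_cast; ring
    rcases hstep with h | h | h | h
    · exact ⟨4 * e + 1, u, a, by omega, by rw [ends_1, hu], by rw [ends_1], d1, by linarith⟩
    · exact ⟨4 * e + 2, a, v, by omega, by rw [ends_2], by rw [ends_2, hv], d2, by linarith⟩
    · exact ⟨4 * e + 3, u, b, by omega, by rw [ends_3, hu], by rw [ends_3], d3, by linarith⟩
    · exact ⟨4 * e + 4, b, v, by omega, by rw [ends_4], by rw [ends_4, hv], d4, by linarith⟩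

lemma depth_bound (hN : 2 ≤ N) {C : ℝ} (hC : 0 ≤ C) (h : EmbedsL1 (disagree (law (N := N))) k C)
    (J : ℕ) (hJ : C * (k + 1) ≤ 2 ^ J) (l : ℕ) (hl : 4 ^ l ≤ N) :
    (l : ℝ) ≤ 8 * (4 * C + 1) * C * (J + 1) := by
  obtain ⟨f, r, hr, hf⟩ := h
  obtain ⟨e, u, v, _, _, _, hd, hPhi⟩ := descent hN f hr hC hf J hJ l hl
  have h1 := Phi_le J _ (scaled_le f hr hf u v _ hd)
  have h2 := le_trans hPhi h1
  rw [mul_one_div, div_le_iff₀ (by positivity)] at h2
  linarith

lemma embeds_mono {d : Fin N → Fin N → ℝ} (hd : ∀ i j, 0 ≤ d i j) {C C' : ℝ} (hC : C ≤ C')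
    (h : EmbedsL1 d k C) : EmbedsL1 d k C' := by
  obtain ⟨f, r, hr, hf⟩ := h
  refine ⟨f, r, hr, fun i j => ⟨(hf i j).1, le_trans (hf i j).2 ?_⟩⟩
  have := hd i j
  gcongr

lemma disagree_nonneg (i j : Fin N) : 0 ≤ disagree law i j := by
  unfold disagree prob
  refine Finset.sum_nonneg fun x _ => ?_
  split_ifs
  · exact law_nonneg x
  · exact le_rfl

theorem power_lower (C : ℝ) : ∃ ε : ℝ, 0 < ε ∧ ∀ᶠ N : ℕ in Filter.atTop, ∀ k : ℕ,
    EmbedsL1 (disagree (law (N := N))) k C → (N : ℝ) ^ ε < k := by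
  obtain ⟨c, hc⟩ := pow_unbounded_of_one_lt C (by norm_num : (1:ℝ) < 2)
  obtain ⟨A0, hA0⟩ := exists_nat_ge (8 * (4 * (2:ℝ) ^ c + 1) * 2 ^ c)
  set A : ℕ := A0 + 1 with hA
  have hApos : (0:ℝ) < A := by positivity
  refine ⟨1 / (4 * A), by positivity, ?_⟩
  filter_upwards [Filter.eventually_ge_atTop (4 ^ (2 * A * (c + 3) + 2))] with N hN k hk
  by_contra hcon
  push Not at hcon
  have hk' := embeds_mono disagree_nonneg hc.le hk
  have hN1 : 4 ^ 1 ≤ N := le_trans (Nat.pow_le_pow_right (by norm_num) (by omega)) hN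
  set L := Nat.log 4 N with hL
  have hL1 : 4 ^ L ≤ N := Nat.pow_log_le_self 4 (by omega)
  have hL2 : N < 4 ^ (L + 1) := Nat.lt_pow_succ_log_self (by norm_num) N
  have hL3 : 2 * A * (c + 3) + 2 ≤ L := Nat.le_log_of_pow_le (by norm_num) hN
  set m := (L + 1) / (2 * A) + 1 with hm
  have hm1 : L + 1 ≤ 2 * A * m := by
    have := Nat.lt_mul_div_succ (L + 1) (show 0 < 2 * A by omega)
    rw [hm]
    omega
  have hm2 : 2 * A * m ≤ L + 1 + 2 * A := by
    have := Nat.mul_div_le (L + 1) (2 * A)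
    rw [hm, mul_add]
    omega
  have hkm : (k : ℝ) ≤ 2 ^ m := by
    refine le_trans hcon ?_
    have e1 : (N : ℝ) ≤ (2 ^ m) ^ (4 * A) := by
      have : N ≤ (2 ^ m) ^ (4 * A) := by
        calc N ≤ 4 ^ (L + 1) := hL2.le
          _ ≤ 4 ^ (2 * A * m) := Nat.pow_le_pow_right (by norm_num) hm1
          _ = (2 ^ m) ^ (4 * A) := by
            rw [show (4:ℕ) = 2 ^ 2 from rfl, ← pow_mul, ← pow_mul]
            congr 1
            ring
      exact_mod_cast this
    calc (N : ℝ) ^ (1 / (4 * (A:ℝ))) ≤ ((2 ^ m) ^ (4 * A) : ℝ) ^ (1 / (4 * (A:ℝ))) :=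
          Real.rpow_le_rpow (Nat.cast_nonneg N) e1 (by positivity)
      _ = 2 ^ m := by
          rw [one_div, show (4 * (A:ℝ)) = ((4 * A : ℕ) : ℝ) by push_cast; ring]
          exact Real.pow_rpow_inv_natCast (by positivity) (by omega)
  have hJ : (2:ℝ) ^ c * (k + 1) ≤ 2 ^ (c + 1 + m) := by
    have h1 : (1:ℝ) ≤ 2 ^ m := one_le_pow₀ (by norm_num)
    rw [pow_add, pow_add, pow_one, mul_assoc]
    exact mul_le_mul_of_nonneg_left (by linarith) (by positivity)
  have hb := depth_bound (by omega) (by positivity) hk' (c + 1 + m) hJ L hL1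
  have hA1 : 8 * (4 * (2:ℝ) ^ c + 1) * 2 ^ c ≤ A := by
    rw [hA]; push_cast; linarith
  have hb2 : (L : ℝ) ≤ A * ((c + 1 + m : ℕ) + 1) :=
    le_trans hb (mul_le_mul_of_nonneg_right hA1 (by positivity))
  have hb3 : L ≤ A * (c + 1 + m + 1) := by exact_mod_cast hb2
  nlinarith

theorem main (C : ℝ) (k : ℕ → ℕ)
    (hk : ∀ ε : ℝ, 0 < ε → ∀ᶠ N : ℕ in Filter.atTop, (k N : ℝ) ≤ (N : ℝ) ^ ε) :
    ∀ᶠ N : ℕ in Filter.atTop, ∃ (pa : Fin N → Finset (Fin N)) (D : (Fin N → Bool) → ℝ),
      IsBayesNet pa D ∧ treewidth (underlying pa) = 2 ∧ ¬ EmbedsL1 (disagree D) (k N) C := by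
  obtain ⟨ε, hε, h⟩ := power_lower C
  filter_upwards [h, hk ε hε, Filter.eventually_ge_atTop 3] with N h1 h2 h3
  exact ⟨pa, law, isBayesNet, treewidth_eq h3, fun he => absurd (h1 _ he) (not_lt.mpr h2)⟩

theorem main_power (C : ℝ) : ∃ ε : ℝ, 0 < ε ∧ ∀ᶠ N : ℕ in Filter.atTop,
    ∃ (pa : Fin N → Finset (Fin N)) (D : (Fin N → Bool) → ℝ),
      IsBayesNet pa D ∧ treewidth (underlying pa) = 2 ∧
        ∀ k : ℕ, EmbedsL1 (disagree D) k C → (N : ℝ) ^ ε < k := by
  obtain ⟨ε, hε, h⟩ := power_lower C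
  refine ⟨ε, hε, ?_⟩
  filter_upwards [h, Filter.eventually_ge_atTop 3] with N h1 h3
  exact ⟨pa, law, isBayesNet, treewidth_eq h3, h1⟩

end Pool.Agent.MP_4d0cf5_co

end
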